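import Mathlib
import Pool.Agent.MP_2b113a_an.C3.Iface
import Pool.Agent.MP_2b113a_an.H83.SpecA

/-!
Koopman operators of the flow and their matrix coefficients.
-/

namespace Pool.Agent.MP_2b113a_an.H53

open MeasureTheory ProbabilityTheory Filter Topology
open scoped ENNReal NNReal Real
open Pool.Agent.MP_2b113a_an.C3
open Pool.Agent.MP_2b113a_an.H83 (L2 n2 n2_nonneg n2_sub rt rt_nonneg rt_mul_self rt_mul n2_rt
  n2_rt_sub)

variable {Ω : Type} [MeasurableSpace Ω] {M : Measure Ω}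

/-- Bounded measurable functions of three-space. -/
structure Bd (f : T3 → ℝ) : Prop where
  m : Measurable f
  b : ∃ B, ∀ q, |f q| ≤ B

lemma Bd.int {f : T3 → ℝ} (h : Bd f) (a b c : ℝ≥0) : Integrable f (N3 a b c) := by
  obtain ⟨B, hB⟩ := h.b
  exact Integrable.of_bound h.m.aestronglyMeasurable B (ae_of_all _ hB)

lemma Dk_add {f g : T3 → ℝ} (hf : Bd f) (hg : Bd g) (κ : ℝ≥0) (i m j : ℕ) :
    Dk κ (fun q => f q + g q) i m j = Dk κ f i m j + Dk κ g i m j := by
  simp only [Dk, Gi, integral_add (hf.int _ _ _) (hg.int _ _ _)]; ring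

lemma Dk_mul (c : ℝ) (f : T3 → ℝ) (κ : ℝ≥0) (i m j : ℕ) :
    Dk κ (fun q => c * f q) i m j = c * Dk κ f i m j := by
  simp only [Dk, Gi, integral_const_mul]; ring

section flow

variable (F : NSFlow Ω M)

/-- The Koopman operator. -/
noncomputable def U (q : T3) (ξ : Ω → ℝ) (ω : Ω) : ℝ := ξ (F.τ q ω) * √(F.W q ω).toReal

@[fun_prop] lemma measurable_U {α : Type*} [MeasurableSpace α] {ξ : Ω → ℝ} {f : α → T3}
    {g : α → Ω} (hξ : Measurable ξ) (hf : Measurable f) (hg : Measurable g) :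
    Measurable fun x => U F (f x) ξ (g x) := by
  unfold U; fun_prop

lemma U_mul (q : T3) (ξ η : Ω → ℝ) (ω : Ω) :
    U F q ξ ω * U F q η ω = ξ (F.τ q ω) * η (F.τ q ω) * (F.W q ω).toReal := by
  rw [U, U, mul_mul_mul_comm, Real.mul_self_sqrt ENNReal.toReal_nonneg]

lemma U_U (p q : T3) (ξ : Ω → ℝ) : U F p (U F q ξ) = U F (q + p) ξ := by
  ext ω
  simp only [U, F.τ_add, F.W_add, ENNReal.toReal_mul, Real.sqrt_mul ENNReal.toReal_nonneg]
  ring

lemma U_zero (ξ : Ω → ℝ) : U F 0 ξ = ξ := by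
  ext ω
  simp [U, F.τ_zero, F.W_zero]

lemma U_rt (q : T3) (X : Ω → ℝ≥0∞) : U F q (rt X) = rt fun ω => F.tl X ω q := by
  ext ω
  simp [U, rt, NSFlow.tl]

lemma integral_U (q : T3) {ξ η : Ω → ℝ} (hξ : Measurable ξ) (hη : Measurable η) :
    ∫ ω, U F q ξ ω * U F q η ω ∂M = ∫ ω, ξ ω * η ω ∂M := by
  simp_rw [U_mul]
  exact F.integral_τ q (g := fun ω => ξ ω * η ω) (hξ.mul hη)

lemma n2_U (q : T3) {ξ : Ω → ℝ} (hξ : Measurable ξ) : n2 M (U F q ξ) = n2 M ξ :=
  integral_U F q hξ hξ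

lemma l2_U (q : T3) {ξ : Ω → ℝ} (h : L2 M ξ) : L2 M (U F q ξ) := by
  have hm := h.m
  refine L2.of_int (by fun_prop) ?_
  simp_rw [U_mul]
  have h2 : Integrable (fun ω => ξ ω * ξ ω) ((M.withDensity (F.W q)).map (F.τ q)) := by
    rw [F.map_τ]; exact h.int h
  rw [integrable_map_measure (by fun_prop) (by fun_prop),
    integrable_withDensity_iff (by fun_prop)
      (ae_of_all _ fun ω => (F.W_ne_top q ω).lt_top)] at h2
  exact h2

lemma adj_U (q : T3) {ξ η : Ω → ℝ} (hξ : Measurable ξ) (hη : Measurable η) :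
    ∫ ω, ξ ω * U F (-q) η ω ∂M = ∫ ω, U F q ξ ω * η ω ∂M := by
  rw [← integral_U F q hξ (by fun_prop), U_U, neg_add_cancel, U_zero]

/-- The diagonal matrix coefficient. -/
noncomputable def co (ξ : Ω → ℝ) (q : T3) : ℝ := ∫ ω, U F q ξ ω * ξ ω ∂M

lemma co_sub (ξ : Ω → ℝ) (hξ : Measurable ξ) (p q : T3) :
    co F ξ (p - q) = ∫ ω, U F p ξ ω * U F q ξ ω ∂M := by
  rw [co, ← integral_U F q (by fun_prop) hξ, U_U, sub_add_cancel]

lemma abs_UU {ξ : Ω → ℝ} (h : L2 M ξ) (p q : T3) :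
    ∫ ω, |U F p ξ ω * U F q ξ ω| ∂M ≤ n2 M ξ := by
  have := (l2_U F p h).abs_int (l2_U F q h)
  rw [n2_U F p h.m, n2_U F q h.m] at this
  linarith

lemma abs_co {ξ : Ω → ℝ} (h : L2 M ξ) (q : T3) : |co F ξ q| ≤ n2 M ξ := by
  have := abs_UU F h q 0
  rw [U_zero] at this
  exact abs_integral_le_integral_abs.trans this

lemma co_eq {ξ : Ω → ℝ} (h : L2 M ξ) (q : T3) :
    co F ξ q = n2 M ξ - n2 M (fun ω => U F q ξ ω - ξ ω) / 2 := by
  rw [n2_sub (l2_U F q h) h, n2_U F q h.m, co]; ring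

lemma co_par {ξ η : Ω → ℝ} (h : L2 M ξ) (h' : L2 M η) (q : T3) :
    co F (fun ω => ξ ω + η ω) q + co F (fun ω => ξ ω - η ω) q = 2 * (co F ξ q + co F η q) := by
  simp only [co]
  rw [← integral_add ((l2_U F q (h.add h')).int (h.add h')) ((l2_U F q (h.sub h')).int (h.sub h')),
    ← integral_add ((l2_U F q h).int h) ((l2_U F q h').int h'), ← integral_const_mul]
  exact integral_congr_ae (ae_of_all _ fun ω => by simp only [U]; ring)

variable [SFinite M]

lemma bd_co {ξ : Ω → ℝ} (h : L2 M ξ) : Bd (co F ξ) := by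
  have hm := h.m
  refine ⟨?_, _, abs_co F h⟩
  exact (StronglyMeasurable.integral_prod_right (f := fun q ω => U F q ξ ω * ξ ω)
    (Measurable.stronglyMeasurable (by fun_prop))).measurable

lemma pd_co {ξ : Ω → ℝ} (h : L2 M ξ) : PD (co F ξ) := by
  refine ⟨(bd_co F h).m, (bd_co F h).b, fun g hg hi => ?_⟩
  have hm := h.m
  let H : T3 × T3 → Ω → ℝ := fun x ω => g x.1 * U F x.1 ξ ω * (g x.2 * U F x.2 ξ ω)
  have e : ∀ x ω, H x ω = g x.1 * g x.2 * (U F x.1 ξ ω * U F x.2 ξ ω) := fun x ω => by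
    simp only [H]; ring
  have mH : Measurable (Function.uncurry H) := by simp only [H]; fun_prop
  have iH : Integrable (Function.uncurry H) ((volume.prod volume).prod M) := by
    rw [integrable_prod_iff mH.aestronglyMeasurable]
    refine ⟨ae_of_all _ fun x => ?_, ?_⟩
    · simp only [Function.uncurry, e]
      exact ((l2_U F _ h).int (l2_U F _ h)).const_mul _
    · refine ((hi.abs.mul_prod hi.abs).mul_const (n2 M ξ)).mono'
        (mH.norm.stronglyMeasurable.integral_prod_right').aestronglyMeasurable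
        (ae_of_all _ fun x => ?_)
      rw [Real.norm_of_nonneg (integral_nonneg fun _ => norm_nonneg _)]
      simp only [Function.uncurry, e, Real.norm_eq_abs, abs_mul (g _ * g _), integral_const_mul]
      rw [abs_mul]
      exact mul_le_mul_of_nonneg_left (abs_UU F h _ _) (by positivity)
  have e2 : ∀ p q, g p * g q * co F ξ (p - q) = ∫ ω, H (p, q) ω ∂M := fun p q => by
    simp only [e, integral_const_mul, co_sub F ξ hm]
  simp_rw [e2]
  rw [← integral_prod (fun x => ∫ ω, H x ω ∂M) iH.integral_prod_left, integral_integral_swap iH]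
  refine integral_nonneg fun ω => ?_
  simp only [H]
  rw [integral_prod_mul (fun p => g p * U F p ξ ω) fun p => g p * U F p ξ ω]
  exact mul_self_nonneg _

lemma Gi_le {ξ : Ω → ℝ} (h : L2 M ξ) (a b c : ℝ≥0) : Gi (co F ξ) a b c ≤ n2 M ξ :=
  (integral_mono ((bd_co F h).int a b c) (integrable_const _)
    fun q => (le_abs_self _).trans (abs_co F h q)).trans (by simp)

/-- The Gaussian average of the coefficient of a root density is at most an affinity. -/
lemma Gi_rt_le {X Y : Ω → ℝ≥0∞} (hX : Measurable X) (hY : Measurable Y)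
    (h : ∫⁻ ω, Y ω ∂M ≠ ∞) (hXY : ∀ ω, X ω ≤ Y ω) (a b c : ℝ≥0) :
    Gi (co F (rt X)) a b c ≤ ∫ ω, rt (F.cv Y (N3 a b c)) ω * rt X ω ∂M := by
  have h' : ∫⁻ ω, X ω ∂M ≠ ∞ := ne_top_of_le_ne_top h (lintegral_mono hXY)
  have l1 := L2.rt hX h'
  have f2 : ∫⁻ ω, F.cv Y (N3 a b c) ω ∂M ≠ ∞ := by rwa [F.lintegral_cv_prob hY]
  have l2 := L2.rt (by fun_prop) f2
  have hm := l1.m
  have mH : Measurable (Function.uncurry fun q ω => U F q (rt X) ω * rt X ω) := by fun_prop
  have iH : Integrable (Function.uncurry fun q ω => U F q (rt X) ω * rt X ω)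
      ((N3 a b c).prod M) := by
    rw [integrable_prod_iff mH.aestronglyMeasurable]
    refine ⟨ae_of_all _ fun q => (l2_U F q l1).int l1, Integrable.of_bound
      (mH.norm.stronglyMeasurable.integral_prod_right').aestronglyMeasurable (n2 M (rt X))
      (ae_of_all _ fun q => ?_)⟩
    rw [Real.norm_of_nonneg (integral_nonneg fun _ => norm_nonneg _)]
    have := abs_UU F l1 q 0
    rwa [U_zero] at this
  simp only [Gi, co]
  rw [integral_integral_swap iH]
  refine integral_mono_ae iH.integral_prod_right (l2.int l1) ?_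
  filter_upwards [ae_lt_top (by fun_prop) f2] with ω hω
  rw [integral_mul_const]
  refine mul_le_mul_of_nonneg_right (Real.le_sqrt_of_sq_le ?_) (rt_nonneg _ _)
  have b1 := (F.cv_mono hXY (N3 a b c) ω)
  have b2 : ∫⁻ q, F.tl X ω q ∂N3 a b c ≠ ∞ := (b1.trans_lt hω).ne
  simp only [U_rt]
  have i1 : Integrable (fun q => (F.tl X ω q).toReal) (N3 a b c) :=
    integrable_toReal_of_lintegral_ne_top (by fun_prop) b2
  have i2 : MemLp (fun q => rt (fun ω => F.tl X ω q) ω) 2 (N3 a b c) := by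
    refine (memLp_two_iff_integrable_sq
      (Measurable.aestronglyMeasurable (by unfold rt; fun_prop))).2 ?_
    simpa only [sq, rt_mul_self] using i1
  have v := variance_nonneg (fun q => rt (fun ω => F.tl X ω q) ω) (N3 a b c)
  rw [variance_eq_sub i2] at v
  refine (sub_nonneg.1 v).trans ?_
  simp only [Pi.pow_apply, sq, rt_mul_self]
  rw [integral_toReal (by fun_prop) (ae_lt_top (by fun_prop) b2)]
  exact ENNReal.toReal_mono hω.ne b1

end flow

end Pool.Agent.MP_2b113a_an.H53
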