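import Mathlib
import Pool.Agent.MP_2b113a_an.H53.SpecA

/-!
The spectral mass of a root density near the diagonal directions is small.
-/

namespace Pool.Agent.MP_2b113a_an.H53

open MeasureTheory ProbabilityTheory Filter Topology
open scoped ENNReal NNReal Real
open Pool.Agent.MP_2b113a_an.C3
open Pool.Agent.MP_2b113a_an.H83 (L2 n2 n2_nonneg n2_sub rt rt_nonneg rt_mul_self rt_mul n2_rt
  n2_rt_sub)

variable {Ω : Type} [MeasurableSpace Ω] {M : Measure Ω}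

/-- The two basic consequences of positive definiteness. -/
structure PDk (κ : ℝ≥0) : Prop where
  nn : ∀ f, PD f → ∀ i m j, 0 ≤ Dk κ f i m j
  le : ∀ f, PD f → ∀ J : Finset (ℕ × ℕ), (∀ x ∈ J, x.2 ≤ x.1) →
    ∑ x ∈ J, Dk κ f (x.1 + x.2) x.1 (x.1 - x.2) ≤ Gi f 1 1 1

/-- The sum of mixed differences along a shifted diagonal. -/
noncomputable def Dd (κ : ℝ≥0) (N m₁ k : ℕ) (f : T3 → ℝ) : ℝ :=
  ∑ m ∈ Finset.range m₁, Dk κ f (N + m + k) (N + m) (N + m - k)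

lemma Dd_add {f g : T3 → ℝ} (hf : Bd f) (hg : Bd g) (κ : ℝ≥0) (N m₁ k : ℕ) :
    Dd κ N m₁ k (fun q => f q + g q) = Dd κ N m₁ k f + Dd κ N m₁ k g := by
  simp only [Dd, Dk_add hf hg, Finset.sum_add_distrib]

lemma Dd_mul (c : ℝ) (f : T3 → ℝ) (κ : ℝ≥0) (N m₁ k : ℕ) :
    Dd κ N m₁ k (fun q => c * f q) = c * Dd κ N m₁ k f := by
  simp only [Dd, Dk_mul, Finset.mul_sum]

lemma PDk.Dd_nonneg {κ : ℝ≥0} (P : PDk κ) {f : T3 → ℝ} (hf : PD f) (N m₁ k : ℕ) :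
    0 ≤ Dd κ N m₁ k f := Finset.sum_nonneg fun _ _ => P.nn f hf _ _ _

lemma PDk.sum_Dd {κ : ℝ≥0} (P : PDk κ) {f : T3 → ℝ} (hf : PD f) {N₀ N : ℕ} (h : N₀ ≤ N + 1)
    (m₁ : ℕ) : ∑ k ∈ Finset.range N₀, Dd κ N m₁ k f ≤ Gi f 1 1 1 := by
  have := P.le f hf ((Finset.range N₀ ×ˢ Finset.range m₁).image fun x => (N + x.2, x.1)) (by
    simp only [Finset.mem_image, Finset.mem_product, Finset.mem_range]
    rintro _ ⟨x, ⟨h1, -⟩, rfl⟩
    show x.1 ≤ N + x.2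
    omega)
  rw [Finset.sum_image, Finset.sum_product] at this
  · exact this
  · rintro ⟨a, b⟩ h1 ⟨c, d⟩ h2 h3
    simp only [Finset.coe_product, Set.mem_prod, Finset.mem_coe, Finset.mem_range,
      Prod.mk.injEq] at h1 h2 h3 ⊢
    omega

lemma N3_map_dg {l : ℝ} (hl : l ≠ 0) (k i j : ℕ) (b : ℝ≥0) :
    (N3 (kap l ^ i) b (kap l ^ (j + k))).map (dg l k) = N3 (kap l ^ (i + k)) b (kap l ^ j) := by
  have := N3_map_scale (kap l ^ i) b (kap l ^ (j + k)) (l ^ k) 1 (l ^ k)⁻¹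
  unfold dg
  simp only [one_mul] at this
  rw [this]
  congr 1 <;> ext <;> simp only [kap, NNReal.coe_mul, NNReal.coe_mk, NNReal.coe_pow] <;>
    field_simp <;> ring

lemma Dd_dg {l : ℝ} (hl : l ≠ 0) {f : T3 → ℝ} (hf : Measurable f) {N k : ℕ} (h : k ≤ N)
    (m₁ : ℕ) : Dd (kap l) N m₁ 0 (fun q => f (dg l k q)) = Dd (kap l) N m₁ k f := by
  have e : ∀ i j b i' j', i' = i + k → j = j' + k →
      Gi (fun q => f (dg l k q)) (kap l ^ i) b (kap l ^ j) = Gi f (kap l ^ i') b (kap l ^ j') := by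
    rintro i j b i' j' rfl rfl
    rw [Gi, Gi, ← N3_map_dg hl, integral_map (by fun_prop) hf.aestronglyMeasurable]
  refine Finset.sum_congr rfl fun m _ => ?_
  simp only [Dk]
  rw [e _ _ _ (N + m + k) (N + m - k), e _ _ _ (N + m + k + 1) (N + m - k),
    e _ _ _ (N + m + k) (N + m - k + 1), e _ _ _ (N + m + k + 1) (N + m - k + 1)] <;> omega

section sym

variable {F : NSFlow Ω M} {δ : T3 → T3} (Y : Sym F δ)

lemma integral_S {g : Ω → ℝ} (hg : Measurable g) :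
    ∫ ω, g (Y.S ω) * (Y.ρ ω).toReal ∂M = ∫ ω, g ω ∂M := by
  have m1 := Y.meas_S
  have m2 := Y.meas_ρ
  have : (M.withDensity Y.ρ).map Y.S = M := by
    refine Measure.ext_of_lintegral _ fun f hf => ?_
    rw [lintegral_map hf m1, lintegral_withDensity_eq_lintegral_mul _ m2
      (by fun_prop), ← Y.inv f hf]
    exact lintegral_congr fun ω => mul_comm _ _
  conv_rhs => rw [← this]
  rw [integral_map (by fun_prop) hg.aestronglyMeasurable,
    integral_withDensity_eq_integral_toReal_smul m2 (ae_of_all _ fun ω => (Y.ρ_ne_top ω).lt_top)]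
  simp [mul_comm]

lemma co_rt {X : Ω → ℝ≥0∞} (hX : Measurable X) (q : T3) :
    co F (rt fun ω => X (Y.S ω) * Y.ρ ω) q = co F (rt X) (δ q) := by
  have hm : Measurable (rt X) := by unfold rt; fun_prop
  rw [co, co, ← integral_S Y (g := fun ω => U F (δ q) (rt X) ω * rt X ω)
    (by fun_prop)]
  refine integral_congr_ae (ae_of_all _ fun ω => ?_)
  have e : F.tl (fun ω => X (Y.S ω) * Y.ρ ω) ω q = F.tl X (Y.S ω) (δ q) * Y.ρ ω := by
    simp only [NSFlow.tl, Y.comm, mul_assoc, Y.cocy, mul_comm (F.W q ω)]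
  simp only [U_rt, ← rt_mul_self Y.ρ]
  simp only [rt, e, ENNReal.toReal_mul, Real.sqrt_mul ENNReal.toReal_nonneg]
  ring

end sym

lemma cv_ρ {F : NSFlow Ω M} {l : ℝ} (hl : l ≠ 0) {k : ℕ} (Y : Sym F (dg l k)) {t : ℕ}
    (h : k ≤ t) (ω : Ω) : F.cv Y.ρ (N3 (kap l ^ t) (kap l ^ t) (kap l ^ t)) ω =
      F.hh (kap l ^ (t + k)) (kap l ^ t) (kap l ^ (t - k)) (Y.S ω) * Y.ρ ω := by
  have := N3_map_dg hl k t (t - k) (kap l ^ t)
  rw [Nat.sub_add_cancel h] at this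
  simp only [NSFlow.hh, NSFlow.cv, Y.tl_ρ, NSFlow.tl_one]
  rw [← this, lintegral_map (by fun_prop) (by fun_prop),
    lintegral_mul_const' _ _ (Y.ρ_ne_top ω)]

section flow

variable (F : NSFlow Ω M)

@[fun_prop] lemma measurable_hh (a b c : ℝ≥0) : Measurable (F.hh a b c) := by
  unfold NSFlow.hh; fun_prop

/-- Bounded invariant weights. -/
structure Wt (s : Ω → ℝ≥0∞) : Prop where
  m : Measurable s
  i : F.Inv s
  b : ∃ C : ℝ≥0, ∀ ω, s ω ≤ C

variable {F}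

lemma Wt.ne_top {s : Ω → ℝ≥0∞} (h : Wt F s) (ω : Ω) : s ω ≠ ∞ := by
  obtain ⟨C, hC⟩ := h.b
  exact ne_top_of_le_ne_top ENNReal.coe_ne_top (hC ω)

lemma Wt.add {s s' : Ω → ℝ≥0∞} (h : Wt F s) (h' : Wt F s') : Wt F fun ω => s ω + s' ω := by
  obtain ⟨C, hC⟩ := h.b
  obtain ⟨C', hC'⟩ := h'.b
  exact ⟨h.m.add h'.m, fun q ω => by simp only [h.i q ω, h'.i q ω],
    C + C', fun ω => by push_cast; exact add_le_add (hC ω) (hC' ω)⟩

lemma Wt.sub {s s' : Ω → ℝ≥0∞} (h : Wt F s) (h' : Wt F s') : Wt F fun ω => s ω - s' ω := by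
  obtain ⟨C, hC⟩ := h.b
  exact ⟨h.m.sub h'.m, fun q ω => by simp only [h.i q ω, h'.i q ω],
    C, fun ω => tsub_le_self.trans (hC ω)⟩

lemma Wt.mul {s : Ω → ℝ≥0∞} (h : Wt F s) (c : ℝ≥0) : Wt F fun ω => c * s ω := by
  obtain ⟨C, hC⟩ := h.b
  exact ⟨h.m.const_mul _, fun q ω => by simp only [h.i q ω],
    c * C, fun ω => by push_cast; exact mul_le_mul_right (hC ω) _⟩

lemma Wt.sum {s : ℕ → Ω → ℝ≥0∞} (h : ∀ k, Wt F (s k)) (N : ℕ) :
    Wt F fun ω => ∑ k ∈ Finset.range N, s k ω := by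
  induction N with
  | zero => exact ⟨by simp, fun _ _ => rfl, 0, by simp⟩
  | succ N ih => simpa only [Finset.sum_range_succ] using ih.add (h N)

lemma Wt.ind {Z : Set Ω} (hZ : MeasurableSet Z) (hi : ∀ q ω, F.τ q ω ∈ Z ↔ ω ∈ Z) :
    Wt F (Z.indicator 1) := by
  classical
  exact ⟨measurable_one.indicator hZ, fun q ω => by simp only [Set.indicator_apply, hi, Pi.one_apply],
    1, fun ω => Set.indicator_apply_le' (fun _ => le_rfl) fun _ => zero_le⟩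

lemma Wt.fin {s X : Ω → ℝ≥0∞} (h : Wt F s) (hX : ∫⁻ ω, X ω ∂M ≠ ∞) :
    ∫⁻ ω, s ω * X ω ∂M ≠ ∞ := by
  obtain ⟨C, hC⟩ := h.b
  refine ne_top_of_le_ne_top ?_ (lintegral_mono fun ω => mul_le_mul_left (hC ω) _)
  rw [lintegral_const_mul' _ _ ENNReal.coe_ne_top]
  exact ENNReal.mul_ne_top ENNReal.coe_ne_top hX

lemma Wt.l2 {s X : Ω → ℝ≥0∞} (h : Wt F s) (mX : Measurable X) (hX : ∫⁻ ω, X ω ∂M ≠ ∞) :
    L2 M (rt fun ω => s ω * X ω) := L2.rt (h.m.mul mX) (h.fin hX)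

lemma Wt.U_mul {s : Ω → ℝ≥0∞} (h : Wt F s) (X : Ω → ℝ≥0∞) (q : T3) (ω : Ω) :
    U F q (rt fun ω => s ω * X ω) ω * rt (fun ω => s ω * X ω) ω =
      (s ω).toReal * (U F q (rt X) ω * rt X ω) := by
  simp only [U, rt_mul, ← rt_mul_self s]
  rw [show rt s (F.τ q ω) = rt s ω by simp only [rt, h.i q ω]]
  ring

lemma Wt.co_add {s s' X : Ω → ℝ≥0∞} (h : Wt F s) (h' : Wt F s') (mX : Measurable X)
    (hX : ∫⁻ ω, X ω ∂M ≠ ∞) : co F (rt fun ω => (s ω + s' ω) * X ω) =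
      fun q => co F (rt fun ω => s ω * X ω) q + co F (rt fun ω => s' ω * X ω) q := by
  ext q
  rw [co, co, co, ← integral_add ((l2_U F q (h.l2 mX hX)).int (h.l2 mX hX))
    ((l2_U F q (h'.l2 mX hX)).int (h'.l2 mX hX))]
  simp only [(h.add h').U_mul, h.U_mul, h'.U_mul]
  simp only [ENNReal.toReal_add (h.ne_top _) (h'.ne_top _), add_mul]

lemma Wt.co_mul {s : Ω → ℝ≥0∞} (h : Wt F s) (c : ℝ≥0) (X : Ω → ℝ≥0∞) :
    co F (rt fun ω => (c * s ω) * X ω) = fun q => c * co F (rt fun ω => s ω * X ω) q := by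
  ext q
  rw [co, co, ← integral_const_mul]
  simp only [(h.mul c).U_mul, h.U_mul]
  simp only [ENNReal.toReal_mul, ENNReal.coe_toReal, mul_assoc]

lemma lintegral_hh [IsProbabilityMeasure M] (a b c : ℝ≥0) : ∫⁻ ω, F.hh a b c ω ∂M = 1 := by
  rw [NSFlow.hh, F.lintegral_cv_prob measurable_const]; simp

lemma Wt.lintegral_hh [SFinite M] {s : Ω → ℝ≥0∞} (h : Wt F s) (a b c : ℝ≥0) :
    ∫⁻ ω, s ω * F.hh a b c ω ∂M = ∫⁻ ω, s ω ∂M := by
  simp only [NSFlow.hh, ← F.cv_inv h.i, F.lintegral_cv_prob h.m]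

variable [SFinite M] {κ : ℝ≥0}

lemma Dd_le (P : PDk κ) {ξ : Ω → ℝ} (h : L2 M ξ) (N m₁ : ℕ) : Dd κ N m₁ 0 (co F ξ) ≤ n2 M ξ := by
  have := P.sum_Dd (pd_co F h) (N₀ := 1) (N := N) (by omega) m₁
  rw [Finset.sum_range_one] at this
  exact this.trans (Gi_le F h _ _ _)

lemma Dd_lip (P : PDk κ) {ξ η : Ω → ℝ} (h : L2 M ξ) (h' : L2 M η) (N m₁ : ℕ) :
    Dd κ N m₁ 0 (co F ξ) ≤ 2 * Dd κ N m₁ 0 (co F η) + 2 * n2 M fun ω => ξ ω - η ω := by
  have h2 := h.sub h'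
  have e := congrArg (Dd κ N m₁ 0) (funext (co_par F h' h2))
  rw [Dd_add (bd_co F (h'.add h2)) (bd_co F (h'.sub h2)), Dd_mul,
    Dd_add (bd_co F h') (bd_co F h2)] at e
  simp only [add_sub_cancel] at e
  linarith [P.Dd_nonneg (pd_co F (h'.sub h2)) N m₁ 0, Dd_le (F := F) P h2 N m₁]

end flow

theorem frame [IsProbabilityMeasure M] {F : NSFlow Ω M} {l : ℝ} (hl : 2 ≤ l) (H : Hyp F l)
    (P : PDk (kap l)) {ε : ℝ} (hε : 0 < ε) :
    ∀ᶠ N : ℕ in atTop, ∃ δ : ℝ≥0∞, δ ≠ 0 ∧ ∀ᶠ t : ℕ in atTop, F.Win (kap l) N t δ →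
      ∀ s, Wt F s → (∀ ω, s ω ≤ 1) → ∀ m₁,
        Dd (kap l) N m₁ 0 (co F (rt fun ω => s ω * F.hh (kap l ^ t) (kap l ^ t) (kap l ^ t) ω)) ≤ ε := by
  obtain ⟨c⟩ := H.cond
  have l0 : l ≠ 0 := by linarith
  let L : ℝ≥0 := .mk (12 / ε) (by positivity)
  obtain ⟨N₀, hN₀⟩ := c.small L (ENNReal.ofReal (ε / 2)) (by simpa using hε)
  filter_upwards [eventually_ge_atTop N₀] with N hN
  let δ : ℝ≥0∞ := ENNReal.ofReal (1 / (2 * (N₀ + 1)))
  have δ0 : δ ≠ 0 := by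
    simp only [δ, Ne, ENNReal.ofReal_eq_zero, not_le]; positivity
  refine ⟨δ, δ0, ?_⟩
  have κ1 : 1 < kap l := by
    rw [← NNReal.coe_lt_coe]
    show (1 : ℝ) < l ^ 2
    nlinarith
  have ev := fun k => F.cv_sub_tendsto (H.Y k).meas_ρ (c.meas k) (H.Y k).ρ_le (c.le k) (c.rel k)
    (tendsto_pow_atTop_atTop_of_one_lt κ1) δ0
  filter_upwards [eventually_ge_atTop N, (eventually_all_finset (Finset.range N₀)).2 fun k _ => ev k]
    with t ht h1 hW s hs hs1 m₁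
  set X := F.hh (kap l ^ t) (kap l ^ t) (kap l ^ t) with hX
  have mX : Measurable X := by rw [hX]; fun_prop
  have iX : ∫⁻ ω, X ω ∂M = 1 := lintegral_hh (F := F) _ _ _
  have fX : ∫⁻ ω, X ω ∂M ≠ ∞ := by simp [iX]
  let lam : (Ω → ℝ≥0∞) → ℝ := fun s => Dd (kap l) N m₁ 0 (co F (rt fun ω => s ω * X ω))
  have ladd : ∀ {s s'}, Wt F s → Wt F s' → lam (fun ω => s ω + s' ω) = lam s + lam s' :=
    fun h h' => by
      simp only [lam]
      rw [h.co_add h' mX fX, Dd_add (bd_co F (h.l2 mX fX)) (bd_co F (h'.l2 mX fX))]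
  have lmul : ∀ {s} (c : ℝ≥0), Wt F s → lam (fun ω => c * s ω) = c * lam s := fun c h => by
    simp only [lam]
    rw [h.co_mul, Dd_mul]
  have lmono : ∀ {s s'}, Wt F s → Wt F s' → (∀ ω, s ω ≤ s' ω) → lam s ≤ lam s' :=
    fun {s s'} h h' hle => by
      have := ladd h (h'.sub h)
      simp only [add_tsub_cancel_of_le (hle _)] at this
      exact this ▸ le_add_of_nonneg_right (P.Dd_nonneg (pd_co F ((h'.sub h).l2 mX fX)) _ _ _)
  have ws : ∀ k, Wt F (c.s k) := fun k => ⟨c.meas k, c.inv k, _, c.le k⟩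
  have lsum : ∀ n, lam (fun ω => ∑ k ∈ Finset.range n, c.s k ω) =
      ∑ k ∈ Finset.range n, lam (c.s k) := fun n => by
    induction n with
    | zero =>
      have := lmul 0 hs
      simpa using this
    | succ n ih => simp only [Finset.sum_range_succ, ladd (Wt.sum ws n) (ws n), ih]
  have step : ∀ k ∈ Finset.range N₀,
      lam (c.s k) ≤ 2 * Dd (kap l) N m₁ k (co F (rt X)) + 4 / (N₀ + 1) := fun k hk => by
    have hk' : k ≤ N := (Finset.mem_range.1 hk).le.trans hN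
    have m1 := (H.Y k).meas_S
    have m2 := (H.Y k).meas_ρ
    have m3 := c.meas k
    have iB : ∫⁻ ω, X ((H.Y k).S ω) * (H.Y k).ρ ω ∂M = 1 := by rw [(H.Y k).inv _ mX, iX]
    have iA : ∫⁻ ω, c.s k ω * X ω ∂M = 1 := by
      have := c.rel k (fun _ => 1) measurable_const fun _ _ => rfl
      simp only [one_mul] at this
      rw [hX, (ws k).lintegral_hh, ← this, (H.Y k).lintegral_ρ]
    have a1 := Dd_lip (F := F) P ((ws k).l2 mX fX)
      (L2.rt (X := fun ω => X ((H.Y k).S ω) * (H.Y k).ρ ω) (by fun_prop) (by simp [iB])) N m₁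
    rw [funext (co_rt (H.Y k) mX), Dd_dg l0 (bd_co F (L2.rt mX fX)).m hk'] at a1
    have a2 := n2_rt_sub (X := fun ω => c.s k ω * X ω)
      (Y := fun ω => X ((H.Y k).S ω) * (H.Y k).ρ ω) (by fun_prop) (by fun_prop) (by simp [iA])
      (iA.trans iB.symm)
    have a3 : ∫⁻ ω, c.s k ω * X ω - X ((H.Y k).S ω) * (H.Y k).ρ ω ∂M ≤ δ + δ := by
      refine le_trans ?_ (add_le_add (h1 k hk) (hW k hk'))
      rw [← (H.Y k).inv (fun ω => F.hh _ _ _ ω - F.hh _ _ _ ω) (by fun_prop),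
        ← lintegral_add_left (by fun_prop)]
      refine lintegral_mono fun ω => ?_
      rw [F.cv_inv (c.inv k), ENNReal.sub_mul fun _ _ => (H.Y k).ρ_ne_top ω,
        ← cv_ρ l0 (H.Y k) (hk'.trans ht)]
      exact tsub_le_tsub_add_tsub
    have a4 := ENNReal.toReal_mono (by simp [δ]) a3
    rw [ENNReal.toReal_add (by simp [δ]) (by simp [δ]), ENNReal.toReal_ofReal (by positivity)] at a4
    have a5 : (4 : ℝ) / (N₀ + 1) = 4 * (1 / (2 * (N₀ + 1)) + 1 / (2 * (N₀ + 1))) := by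
      field_simp; ring
    simp only [lam]
    linarith
  have b1 : ∑ k ∈ Finset.range N₀, lam (c.s k) ≤ 6 := by
    refine (Finset.sum_le_sum step).trans ?_
    rw [Finset.sum_add_distrib, ← Finset.mul_sum, Finset.sum_const, Finset.card_range, nsmul_eq_mul]
    have := (P.sum_Dd (pd_co F (L2.rt mX fX)) (N₀ := N₀) (N := N) (by omega) m₁).trans
      (Gi_le F (L2.rt mX fX) _ _ _)
    rw [n2_rt mX fX, iX, ENNReal.toReal_one] at this
    have : (N₀ : ℝ) * (4 / (N₀ + 1)) ≤ 4 := by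
      rw [← mul_div_assoc, div_le_iff₀ (by positivity)]; linarith
    linarith
  set Z := {ω | ∑ k ∈ Finset.range N₀, c.s k ω < L} with hZ
  have wZ : Wt F (Z.indicator 1) := Wt.ind
    (measurableSet_lt (Wt.sum ws N₀).m measurable_const) fun q ω => by
      simp only [hZ, Set.mem_ofPred_eq, c.inv _ q ω]
  have b2 : lam (Z.indicator 1) ≤ ε / 2 := by
    refine (Dd_le P (wZ.l2 mX fX) N m₁).trans ?_
    rw [n2_rt (X := fun ω => Z.indicator 1 ω * X ω) (wZ.m.mul mX) (wZ.fin fX), hX, wZ.lintegral_hh, lintegral_indicator_one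
      (measurableSet_lt (Wt.sum ws N₀).m measurable_const)]
    exact ENNReal.toReal_le_of_le_ofReal (by positivity) hN₀
  have b3 := lmono (hs.mul L) ((Wt.sum ws N₀).add (wZ.mul L)) fun ω => by
    refine ((mul_le_mul_right (hs1 ω) _).trans (mul_one _).le).trans ?_
    by_cases h : ω ∈ Z
    · rw [Set.indicator_of_mem h, Pi.one_apply, mul_one]
      exact le_add_self
    · exact le_add_right (not_lt.1 h)
  rw [lmul L hs, ladd (Wt.sum ws N₀) (wZ.mul L), lmul L wZ, lsum] at b3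
  have hL : (L : ℝ) = 12 / ε := rfl
  have p : (0 : ℝ) < L := by rw [hL]; positivity
  have b4 : (L : ℝ) * (ε / 2) = 6 := by rw [hL]; field_simp; norm_num
  refine le_of_mul_le_mul_left (?_ : (L : ℝ) * lam s ≤ _) p
  nlinarith [mul_le_mul_of_nonneg_left b2 p.le]

end Pool.Agent.MP_2b113a_an.H53
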